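import Pool.Agent.H63.PK.Asm
import Pool.Agent.H99.LNT.TFP
import Pool.Agent.H70.LNT.GAU
import Pool.Agent.H99.LNT.BLV
import Pool.Agent.H73.LNT.EVA
import Pool.Agent.H73.LNT.EVP
import Pool.Agent.H73.LNT.PRL
import Pool.Agent.H72.LNT.RUN

/-!
# Row BIG of the board pwk_modules: from the prime fields to all rings
-/

set_option autoImplicit false

open Finset

namespace Pool.Agent.H19.PK

open Pool.Agent.H59.LIN Pool.Agent.H13.LN Pool.Agent.H63.PK

/-- A submodule which is everything modulo all primes is everything. -/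
theorem top_of_primes {M : Type*} [AddCommGroup M] [Module.Finite ℤ M] (L : Submodule ℤ M)
    (h : ∀ p : ℕ, p.Prime → ∀ m : M, ∃ m' : M, m - (p : ℤ) • m' ∈ L) : L = ⊤ := by
  have h1 : ∀ p : ℕ, p.Prime → ∃ r : ℤ, r - 1 ∈ Ideal.span {(p : ℤ)} ∧
      ∀ q : M ⧸ L, r • q = 0 := by
    intro p hp
    obtain ⟨r, hr, h2⟩ := Submodule.exists_sub_one_mem_and_smul_eq_zero_of_fg_of_le_smul
      (Ideal.span {(p : ℤ)}) (⊤ : Submodule ℤ (M ⧸ L)) Module.Finite.fg_top (by
        intro q _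
        obtain ⟨m, rfl⟩ := Submodule.Quotient.mk_surjective L q
        obtain ⟨m', hm⟩ := h p hp m
        have h3 : (Submodule.Quotient.mk m : M ⧸ L) = (p : ℤ) • Submodule.Quotient.mk m' := by
          rw [← Submodule.Quotient.mk_smul]
          exact (Submodule.Quotient.eq L).2 hm
        rw [h3]
        exact Submodule.smul_mem_smul (Ideal.subset_span rfl) trivial)
    exact ⟨r, hr, fun q => h2 q trivial⟩
  by_contra hL
  have h2 : Module.annihilator ℤ (M ⧸ L) ≠ ⊤ := by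
    intro h3
    refine hL (Submodule.Quotient.subsingleton_iff.1 ?_)
    refine ⟨fun a b => ?_⟩
    have h4 : (1 : ℤ) ∈ Module.annihilator ℤ (M ⧸ L) := by rw [h3]; trivial
    have h5 := Module.mem_annihilator.1 h4
    rw [← one_smul ℤ a, ← one_smul ℤ b, h5, h5]
  obtain ⟨J, hJ, hIJ⟩ := Ideal.exists_le_maximal _ h2
  obtain ⟨g, hg⟩ := (IsPrincipalIdealRing.principal J).1
  have hgs : J = Ideal.span {g} := hg
  have hg0 : g ≠ 0 := by
    intro h0
    obtain ⟨r, hr, h3⟩ := h1 2 Nat.prime_two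
    have h4 : r ∈ J := hIJ (Module.mem_annihilator.2 h3)
    rw [hgs, h0, Ideal.mem_span_singleton] at h4
    have h5 : r = 0 := zero_dvd_iff.1 h4
    rw [h5, Ideal.mem_span_singleton] at hr
    omega
  have hgp : Prime g := by
    rw [← Ideal.span_singleton_prime hg0, ← hgs]
    exact hJ.isPrime
  have hpn : g.natAbs.Prime := Int.prime_iff_natAbs_prime.1 hgp
  obtain ⟨r, hr, h3⟩ := h1 g.natAbs hpn
  have h4 : r ∈ J := hIJ (Module.mem_annihilator.2 h3)
  rw [hgs, Ideal.mem_span_singleton] at h4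
  rw [Ideal.mem_span_singleton, Int.natAbs_dvd] at hr
  have h5 : g ∣ 1 := by
    have h6 := dvd_sub h4 hr
    rwa [sub_sub_cancel] at h6
  exact hgp.not_isUnit (isUnit_of_dvd_one h5)

theorem gau0 : T_GAU := by
  have hRUN : T_RUN := H72.LNT.run
  have hPRL : T_PRL := H73.LNT.prl hRUN
  have hEVA : T_EVA := H73.LNT.eva hRUN
  have hEVP : T_EVP := H73.LNT.evp hRUN hEVA hPRL
  exact H70.LNT.gau hRUN hEVA (H99.LNT.blv hRUN hEVA hEVP hPRL)

/-- Only the values on chord diagrams matter. -/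
theorem indu_congr {R : Type*} [AddCommGroup R] {d : ℕ} {W W' : List ℕ → R} (h : Indu d W)
    (hW : ∀ l, Gw d l → W l = W' l) : Indu d W' := by
  obtain ⟨v, h1, h2, h3⟩ := h
  refine ⟨v, h1, h2, fun n w hK hd => ?_⟩
  rw [h3 n w hK hd]
  refine hW _ ?_
  have h4 := (gau0 n w hK).1
  rwa [hd] at h4

/-- The induced homomorphisms. -/
def IndHom (d : ℕ) (g : Chd d →+ ℤ) : Prop :=
  ∃ W : List ℕ → ℤ, Indu d W ∧ ∀ l : GW d, g (QuotientAddGroup.mk (Finsupp.single l 1)) = W l.1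

theorem comb_ind (hIDL : T_IDL) {d : ℕ} {ι : Type} (S : Finset ι) (g : ι → (Chd d →+ ℤ))
    (c : ι → ℤ) (h : ∀ i ∈ S, IndHom d (g i)) (f : Chd d →+ ℤ)
    (hf : ∀ x, f x = ∑ i ∈ S, c i * g i x) : IndHom d f := by
  have h1 : ∀ i, ∃ W : List ℕ → ℤ, i ∈ S → Indu d W ∧
      ∀ l : GW d, g i (QuotientAddGroup.mk (Finsupp.single l 1)) = W l.1 := by
    intro i
    by_cases hi : i ∈ S
    · obtain ⟨W, h2⟩ := h i hi
      exact ⟨W, fun _ => h2⟩
    · exact ⟨fun _ => 0, fun h2 => absurd h2 hi⟩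
  choose W hW using h1
  refine ⟨_, hIDL ℤ d ι S W c fun i hi => (hW i hi).1, fun l => ?_⟩
  rw [hf]
  refine Finset.sum_congr rfl fun i hi => ?_
  rw [(hW i hi).2 l]
  rfl

/-- The submodule of the induced homomorphisms. -/
def IndSub (hIDL : T_IDL) (d : ℕ) : Submodule ℤ (Chd d →+ ℤ) where
  carrier := {g | IndHom d g}
  zero_mem' := comb_ind hIDL (∅ : Finset ℕ) (fun _ => 0) (fun _ => 0)
    (fun i hi => absurd hi (Finset.notMem_empty i)) 0 fun x => rfl
  add_mem' {a b} ha hb := comb_ind hIDL (Finset.univ : Finset Bool)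
    (fun i => if i then a else b) (fun _ => 1) (fun i _ => by cases i; exact hb; exact ha) _
    fun x => by
      rw [Fintype.sum_bool]
      simp
  smul_mem' c a ha := comb_ind hIDL ({0} : Finset ℕ) (fun _ => a) (fun _ => c)
    (fun i _ => ha) _ fun x => by
      rw [Finset.sum_singleton]
      rfl

/-- A homomorphism with values divisible by `p`. -/
theorem div_hom {A : Type*} [AddCommGroup A] (p : ℕ) (hp : p.Prime) (f : A →+ ℤ)
    (h : ∀ a, ((f a : ℤ) : ZMod p) = 0) : ∃ g : A →+ ℤ, ∀ a, f a = (p : ℤ) * g a := by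
  have h1 : ∀ a, (p : ℤ) ∣ f a := fun a => (ZMod.intCast_zmod_eq_zero_iff_dvd _ _).1 (h a)
  have hp0 : (p : ℤ) ≠ 0 := Nat.cast_ne_zero.2 hp.ne_zero
  refine ⟨AddMonoidHom.mk' (fun a => f a / p) fun a b => ?_, fun a => ?_⟩
  · rw [map_add]
    exact Int.add_ediv_of_dvd_left (h1 a)
  · exact (Int.mul_ediv_cancel' (h1 a)).symm

theorem big (hTFL : T_TFL) (hIDL : T_IDL) : T_BIG := by
  intro d h R _ W hW
  have hFG : AddGroup.FG (Chd d) := H99.LNT.fgc d
  have hfin : Module.Finite ℤ (Chd d) := Module.Finite.iff_addGroup_fg.2 hFG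
  have htor : ∀ (x : Chd d) (m : ℤ), m ≠ 0 → m • x = 0 → x = 0 :=
    (H99.LNT.tfp (Chd d)).2 fun p hp => (chd_lift hTFL p hp d).2 fun V hV => by
      obtain ⟨W', h1, -, h3⟩ := h p hp V hV
      exact ⟨W', h1, h3⟩
  have htf : Module.IsTorsionFree ℤ (Chd d) := by
    refine Module.isTorsionFree_iff_smul_eq_zero.2 fun m x => ?_
    intro hx
    by_cases hm : m = 0
    · exact Or.inl hm
    · exact Or.inr (htor x m hm hx)
  have hfree : Module.Free ℤ (Chd d) := inferInstance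
  have hL : IndSub hIDL d = ⊤ := by
    refine top_of_primes _ fun p hp g => ?_
    obtain ⟨V, hV, hV2⟩ := (H49.LNT.wsc d (ZMod p)).2 ((Int.castAddHom (ZMod p)).comp g)
    obtain ⟨W', h1, h2, h3⟩ := h p hp V hV
    obtain ⟨g', hg'⟩ := (H49.LNT.wsc d ℤ).1 W' h1
    have h4 : (Int.castAddHom (ZMod p)).comp g' = (Int.castAddHom (ZMod p)).comp g := by
      refine hom_ext' _ _ _ fun l => ?_
      rw [hV2 l, AddMonoidHom.comp_apply, hg' l]
      exact h3 l.1 l.2
    obtain ⟨q, hq⟩ := div_hom p hp (g - g') fun a => by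
      have h5 := DFunLike.congr_fun h4 a
      rw [AddMonoidHom.sub_apply, Int.cast_sub]
      exact sub_eq_zero.2 h5.symm
    refine ⟨q, W', h2, fun l => ?_⟩
    rw [← hg' l, AddMonoidHom.sub_apply]
    have h6 := hq (QuotientAddGroup.mk (Finsupp.single l 1))
    rw [AddMonoidHom.sub_apply] at h6
    have h7 : ((p : ℤ) • q) (QuotientAddGroup.mk (Finsupp.single l 1)) =
        (p : ℤ) * q (QuotientAddGroup.mk (Finsupp.single l 1)) := rfl
    rw [h7, ← h6, sub_sub_cancel]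
  let b := Module.Free.chooseBasis ℤ (Chd d)
  have h8 : ∀ i, ∃ V : List ℕ → ℤ, Indu d V ∧ ∀ l : GW d,
      b.coord i (QuotientAddGroup.mk (Finsupp.single l 1)) = V l.1 := by
    intro i
    have h9 : (b.coord i).toAddMonoidHom ∈ IndSub hIDL d := by rw [hL]; trivial
    exact h9
  choose V hV hV2 using h8
  obtain ⟨φ, hφ⟩ := (H49.LNT.wsc d R).1 W hW
  have h10 := hIDL R d (Module.Free.ChooseBasisIndex ℤ (Chd d)) Finset.univ V
    (fun i => φ (b i)) fun i _ => hV i
  refine indu_congr h10 fun l hl => ?_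
  have h11 := hφ ⟨l, hl⟩
  rw [← h11]
  conv_rhs => rw [← b.sum_repr (QuotientAddGroup.mk (Finsupp.single (⟨l, hl⟩ : GW d) 1))]
  rw [map_sum]
  refine Finset.sum_congr rfl fun i _ => ?_
  rw [map_zsmul, zsmul_eq_mul, mul_comm]
  congr 2
  exact (hV2 i ⟨l, hl⟩).symm

end Pool.Agent.H19.PK
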