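import Pool.Agent.H97.PK.Targets

/-!
# Far parts of the cells: the common estimate
-/

open MeasureTheory Set Metric Real
open scoped ENNReal

namespace Pool.Agent.H19.PK

open Pool.Agent.H97.PK

theorem sum_lint_le {ι : Type} (S : Finset ι) (μ : Measure ℝ) (f : ι → ℝ → ℝ≥0∞) :
    ∑ i ∈ S, ∫⁻ s, f i s ∂μ ≤ ∫⁻ s, ∑ i ∈ S, f i s ∂μ := by
  classical
  induction S using Finset.induction_on with
  | empty => simp
  | insert a S ha ih =>
    rw [Finset.sum_insert ha]
    simp only [Finset.sum_insert ha]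
    exact (add_le_add le_rfl ih).trans (le_lintegral_add _ _)

theorem lint_exp (B c : ℝ) (hB : 0 < B) :
    ∫⁻ s in Ioi c, ENNReal.ofReal (exp (B * (1 - s))) = ENNReal.ofReal (exp (B * (1 - c)) / B) := by
  have h1 : ∀ s : ℝ, exp (B * (1 - s)) = exp B * exp (-B * s) := by
    intro s
    rw [← exp_add]
    congr 1
    ring
  have h2 : IntegrableOn (fun s : ℝ => exp (B * (1 - s))) (Ioi c) := by
    simp only [h1]
    exact (integrableOn_exp_mul_Ioi (by linarith) c).const_mul _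
  rw [← ofReal_integral_eq_lintegral_ofReal h2 (Filter.Eventually.of_forall fun s => (exp_pos _).le)]
  congr 1
  simp only [h1]
  rw [integral_const_mul, integral_exp_mul_Ioi (by linarith)]
  field_simp

theorem core (hGRO : T_GRO) (hDIS : T_DIS) (d : ℕ) (hd : 1 ≤ d) (ι : Type) [Fintype ι]
    (p : ι → E d) (b ρ Γ : ι → ℝ) (S : Finset ι) (A B c : ℝ) (hA : 0 ≤ A) (hB : 0 < B)
    (hc : 1 ≤ c)
    (h : ∀ s, c < s → ∀ i ∈ S, Γ i * exp (Γ i * (1 - s)) * √s ^ d ≤ A * exp (B * (1 - s))) :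
    ∑ i ∈ S, ∫⁻ s in Ioi c, ENNReal.ofReal (Γ i * exp (Γ i * (1 - s))) *
      volume (cell p b i ∩ ball (p i) (√s * ρ i)) ≤
      ENNReal.ofReal (A * (exp (B * (1 - c)) / B)) * vU p ρ := by
  refine (sum_lint_le S _ _).trans ?_
  have h1 : ∫⁻ s in Ioi c, ∑ i ∈ S, ENNReal.ofReal (Γ i * exp (Γ i * (1 - s))) *
      volume (cell p b i ∩ ball (p i) (√s * ρ i)) ≤
      ∫⁻ s in Ioi c, ENNReal.ofReal A * ENNReal.ofReal (exp (B * (1 - s))) * vU p ρ := by
    refine setLIntegral_mono' measurableSet_Ioi fun s hs => ?_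
    have hs1 : 1 ≤ √s := by
      rw [Real.one_le_sqrt]
      exact hc.trans (le_of_lt hs)
    have hs0 : 0 < √s ^ d := by positivity
    calc ∑ i ∈ S, ENNReal.ofReal (Γ i * exp (Γ i * (1 - s))) *
          volume (cell p b i ∩ ball (p i) (√s * ρ i))
        ≤ ∑ i ∈ S, ENNReal.ofReal (A * exp (B * (1 - s)) / √s ^ d) *
          volume (cell p b i ∩ ball (p i) (√s * ρ i)) := by
          refine Finset.sum_le_sum fun i hi => mul_le_mul_left (ENNReal.ofReal_le_ofReal ?_) _
          rw [le_div_iff₀ hs0]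
          exact h s hs i hi
      _ = ENNReal.ofReal (A * exp (B * (1 - s)) / √s ^ d) *
          ∑ i ∈ S, volume (cell p b i ∩ ball (p i) (√s * ρ i)) := by rw [Finset.mul_sum]
      _ ≤ ENNReal.ofReal (A * exp (B * (1 - s)) / √s ^ d) *
          (ENNReal.ofReal (√s ^ d) * vU p ρ) := by
          refine mul_le_mul_right ?_ _
          exact ((hDIS d ι p b).2 S fun i => √s * ρ i).trans (hGRO d hd ι p ρ (√s) hs1)
      _ = ENNReal.ofReal A * ENNReal.ofReal (exp (B * (1 - s))) * vU p ρ := by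
          rw [← mul_assoc, ← ENNReal.ofReal_mul (by positivity), ← ENNReal.ofReal_mul hA,
            div_mul_cancel₀ _ hs0.ne']
  refine h1.trans (le_of_eq ?_)
  rw [lintegral_mul_const _ (by fun_prop), lintegral_const_mul _ (by fun_prop), lint_exp B c hB,
    ENNReal.ofReal_mul hA]

end Pool.Agent.H19.PK
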