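import Pool.Agent.H97.PK.Targets

/-!
# (INJ) reduction to distinct points
-/

open MeasureTheory Set Metric Real
open scoped ENNReal

namespace Pool.Agent.H19.PK

open Pool.Agent.H97.PK

theorem pf_inj : T_INJ := by
  classical
  intro d C H ι _ p q ρ hpq hρ
  have hex : ∀ c : Set.range p, ∃ i, p i = c ∧ ∀ j, p j = c → ρ j ≤ ρ i := by
    rintro ⟨_, i, rfl⟩
    obtain ⟨k, hk, hmax⟩ := (Finset.univ.filter fun j => p j = p i).exists_max_image ρ
      ⟨i, Finset.mem_filter.2 ⟨Finset.mem_univ _, rfl⟩⟩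
    exact ⟨k, (Finset.mem_filter.1 hk).2, fun j hj =>
      hmax j (Finset.mem_filter.2 ⟨Finset.mem_univ _, hj⟩)⟩
  choose t ht htmax using hex
  have hinj : Function.Injective fun c => p (t c) := by
    intro c c' h
    apply Subtype.ext
    rw [← ht c, ← ht c']
    exact h
  have h1 := H (Set.range p) (fun c => p (t c)) (fun c => q (t c)) (fun c => ρ (t c)) hinj
    (fun c c' => hpq _ _) (fun c => hρ _)
  have h2 : vU q ρ ≤ vU (fun c => q (t c)) (fun c => ρ (t c)) := by
    refine measure_mono (iUnion_subset fun i => ?_)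
    refine subset_iUnion_of_subset (⟨p i, i, rfl⟩ : Set.range p) ?_
    have h3 : p (t ⟨p i, i, rfl⟩) = p i := ht ⟨p i, i, rfl⟩
    have h4 : q i = q (t ⟨p i, i, rfl⟩) := by
      have h5 := hpq i (t ⟨p i, i, rfl⟩)
      rw [h3, dist_self] at h5
      exact dist_le_zero.1 h5
    rw [h4]
    exact closedBall_subset_closedBall (htmax ⟨p i, i, rfl⟩ i rfl)
  have h3 : vU (fun c => p (t c)) (fun c => ρ (t c)) ≤ vU p ρ :=
    measure_mono (iUnion_subset fun c => subset_iUnion (fun i => closedBall (p i) (ρ i)) (t c))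
  exact h2.trans (h1.trans (mul_le_mul_right h3 _))

end Pool.Agent.H19.PK
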