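import Pool.Agent.H63.PK.Targets

/-!
# Row LFW of the board pwk_modules: lifting of all weight systems
-/

set_option autoImplicit false

open Finset

namespace Pool.Agent.H19.PK

open Pool.Agent.H59.LIN Pool.Agent.H13.LN Pool.Agent.H63.PK

/-- Weight systems are mapped to weight systems by additive maps. -/
theorem ws_map {A B : Type*} [AddCommGroup A] [AddCommGroup B] {d : ℕ} {W : List ℕ → A}
    (h : WS d W) (φ : A →+ B) : WS d (fun l => φ (W l)) where
  relab l f hl hf := congrArg φ (h.relab l f hl hf)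
  rot a l hl := congrArg φ (h.rot a l hl)
  isol X Y a hl := (congrArg φ (h.isol X Y a hl)).trans (map_zero φ)
  four X Y Z a b hl := by
    have h1 := congrArg φ (h.four X Y Z a b hl)
    rw [map_zero, map_sub, map_add, map_sub] at h1
    exact h1

/-- The combination of the coefficients as an additive map. -/
noncomputable def comb {σ : Type} (S : Finset (σ →₀ ℕ)) (c : (σ →₀ ℕ) → ℤ) :
    MvPolynomial σ ℤ →+ ℤ :=
  ∑ α ∈ S, (AddMonoidHom.mulLeft (c α)).comp (MvPolynomial.coeffAddMonoidHom α)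

theorem comb_apply {σ : Type} (S : Finset (σ →₀ ℕ)) (c : (σ →₀ ℕ) → ℤ)
    (f : MvPolynomial σ ℤ) : comb S c f = ∑ α ∈ S, c α * MvPolynomial.coeff α f := by
  unfold comb
  rw [AddMonoidHom.finsetSum_apply]
  exact Finset.sum_congr rfl fun α _ => rfl

/-- The lifting of weight systems, with a property `P` of the lifts of the primitive ones. -/
theorem core (hBSF : T_BSF) (hLAM : T_LAM) (hEXP : T_EXP) (hGXP : T_GXP) (hEXH : T_EXH)
    (p : ℕ) (hp : p.Prime) (n : ℕ) (P : ℕ → (List ℕ → ℤ) → Prop)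
    (hP : ∀ d ≤ n, ∀ W : List ℕ → ZMod p, PWS d W →
      ∃ W' : List ℕ → ℤ, PWS d W' ∧ P d W' ∧ Red p d W' W) :
    ∀ d ≤ n, ∀ W : List ℕ → ZMod p, WS d W →
      ∃ (r : ℕ → ℕ) (X : (d : ℕ) → Fin (r d) → List ℕ → ℤ)
        (S : Finset ((Σ d : ℕ, Fin (r d)) →₀ ℕ)) (c : ((Σ d : ℕ, Fin (r d)) →₀ ℕ) → ℤ),
        r 0 = 0 ∧ (∀ d i, PWS d (X d i)) ∧ (∀ d i, P d (X d i)) ∧
        (∀ α ∈ S, Finsupp.weight (wv r) α = d) ∧
        WS d (fun l => ∑ α ∈ S, c α * MvPolynomial.coeff α (Ex (gx X) l)) ∧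
        Red p d (fun l => ∑ α ∈ S, c α * MvPolynomial.coeff α (Ex (gx X) l)) W := by
  intro d hd W hW
  have : Fact p.Prime := ⟨hp⟩
  obtain ⟨r, x, y, hD, hS, h0⟩ := exDat (ZMod p) (fun d => d ≤ n)
    (fun d _ _ => hBSF (ZMod p) d)
  have hl : ∀ (e : ℕ) (i : Fin (r e)), ∃ X : List ℕ → ℤ, PWS e X ∧ P e X ∧ Red p e X (x e i) := by
    intro e i
    by_cases he : e ≤ n
    · exact hP e he (x e i) (hD.pws e i)
    · exact (Fin.cast (h0 e he) i).elim0
  choose X hX using hl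
  obtain ⟨S, c, hc, hs⟩ := hLAM (ZMod p) r x y n hD (hS n fun d hd => hd) d hd W hW
  have hpws : ∀ d i, PWS d (X d i) := fun d i => (hX d i).1
  refine ⟨r, X, S, fun α => ((c α).val : ℤ), hD.zero, hpws, fun d i => (hX d i).2.1, hc, ?_, ?_⟩
  · have h1 := (hEXP _ (gx X) fun d => (hGXP ℤ r X hpws d).ws).1 d
    have h2 := ws_map h1 (comb S (fun α => ((c α).val : ℤ)))
    have h3 : (fun l => comb S (fun α => ((c α).val : ℤ)) (Ex (gx X) l)) =
        fun l => ∑ α ∈ S, ((c α).val : ℤ) * MvPolynomial.coeff α (Ex (gx X) l) :=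
      funext fun l => comb_apply S _ _
    rw [← h3]
    exact h2
  · intro l hl
    have h1 := hEXH.2 ℤ (ZMod p) (Int.castRingHom (ZMod p)) r X x
      (fun d i l hl => ((hX d i).2.2 l hl).symm) d l hl
    rw [hs l hl, Int.cast_sum]
    refine Finset.sum_congr rfl fun α _ => ?_
    rw [Int.cast_mul, h1, MvPolynomial.coeff_map, Int.cast_natCast, ZMod.natCast_zmod_val]
    rfl

theorem lfw (hBSF : T_BSF) (hLAM : T_LAM) (hEXP : T_EXP) (hGXP : T_GXP) (hEXH : T_EXH)
    (hTOP : T_TOP) (hIDL : T_IDL) : T_LFW := by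
  intro p hp n
  constructor
  · intro h d hd W hW
    obtain ⟨r, X, S, c, -, -, -, -, h1, h2⟩ := core hBSF hLAM hEXP hGXP hEXH p hp n
      (fun _ _ => True) (fun d hd W hW => by
        obtain ⟨W', h1, h2⟩ := h d hd W hW
        exact ⟨W', h1, trivial, h2⟩) d hd W hW
    exact ⟨_, h1, h2⟩
  · intro h d hd W hW
    obtain ⟨r, X, S, c, h0, hp1, hI, hw, h1, h2⟩ := core hBSF hLAM hEXP hGXP hEXH p hp n
      (fun d W => Indu d W) (fun d hd W hW => h d hd W hW) d hd W hW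
    refine ⟨_, h1, ?_, h2⟩
    have h3 := hIDL ℤ d ((Σ d : ℕ, Fin (r d)) →₀ ℕ) S
      (fun α l => MvPolynomial.coeff α (Ex (gx X) l)) c (fun α hα => by
        have h4 := hTOP r X h0 hp1 hI α
        rw [hw α hα] at h4
        exact h4)
    exact h3

end Pool.Agent.H19.PK
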