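import Pool.Agent.H19.PK.Core

/-!
# (RSU) far parts of the cells, largest exponents
-/

open MeasureTheory Set Metric Real
open scoped ENNReal

namespace Pool.Agent.H19.PK

open Pool.Agent.H97.PK

theorem pf_rsu (hGRO : T_GRO) (hDIS : T_DIS) : T_RSU := by
  intro d hd ι _ p b ρ Γ S _ hΓ
  have hd1 : (1 : ℝ) ≤ d := by exact_mod_cast hd
  have h := core hGRO hDIS d hd ι p b ρ Γ S ((d : ℝ) + 1) ((d : ℝ) / 2) 1 (by positivity)
    (by positivity) le_rfl (fun s hs i hi => ?_)
  · refine h.trans (mul_le_mul_left ?_ _)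
    have h4 : (4 : ℝ≥0∞) = ENNReal.ofReal 4 := by simp
    rw [h4]
    refine ENNReal.ofReal_le_ofReal ?_
    rw [sub_self, mul_zero, Real.exp_zero, one_div_div, mul_div_assoc', div_le_iff₀ (by positivity)]
    nlinarith
  · obtain ⟨h1, h2⟩ := hΓ i hi
    have hy : 1 - s ≤ 0 := by linarith
    have h3 : exp (Γ i * (1 - s)) ≤ exp (d * (1 - s)) :=
      Real.exp_le_exp.2 (mul_le_mul_of_nonpos_right h1 hy)
    have hs0 : √s ≤ exp ((s - 1) / 2) := by
      have h5 : s ≤ exp (s - 1) := by
        have := Real.add_one_le_exp (s - 1)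
        linarith
      calc √s ≤ √(exp (s - 1)) := Real.sqrt_le_sqrt h5
        _ = exp ((s - 1) / 2) := by rw [Real.exp_half]
    have hsd : √s ^ d ≤ exp (d * ((s - 1) / 2)) := by
      rw [Real.exp_nat_mul]
      exact pow_le_pow_left₀ (Real.sqrt_nonneg s) hs0 d
    calc Γ i * exp (Γ i * (1 - s)) * √s ^ d
        ≤ ((d : ℝ) + 1) * exp (d * (1 - s)) * exp (d * ((s - 1) / 2)) := by
          refine mul_le_mul (mul_le_mul h2 h3 (Real.exp_pos _).le (by positivity)) hsd
            (by positivity) (by positivity)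
      _ = ((d : ℝ) + 1) * exp ((d : ℝ) / 2 * (1 - s)) := by
          rw [mul_assoc, ← Real.exp_add]
          congr 2
          ring

end Pool.Agent.H19.PK
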