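import Pool.Agent.H97.PK.Targets

/-!
# (TAN) tangent lines of log-concave functions
-/

open MeasureTheory Set Metric Real
open scoped ENNReal

namespace Pool.Agent.H19.PK

open Pool.Agent.H97.PK

theorem pf_tan : T_TAN := by
  intro V hmono hnn h0 hlc ⟨t₀, ht₀, hVt₀⟩ ⟨t₁, ht₁, hVt₁⟩
  have hVpos : ∀ t, 0 < t → 0 < V t := fun t ht => h0.trans_le (hmono ht.le)
  -- slopes
  have hsl : ∀ s, s < 0 → 0 < V s → ∀ t, 0 < t →
      (log (V t) - log (V 0)) / t ≤ (log (V 0) - log (V s)) / (-s) := by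
    intro s hs hVs t ht
    have hts : 0 < t - s := by linarith
    have hθ0 : 0 ≤ -s / (t - s) := div_nonneg (by linarith) hts.le
    have hθ1 : -s / (t - s) ≤ 1 := by
      rw [div_le_one hts]
      linarith
    have h1 := hlc s t (-s / (t - s)) hθ0 hθ1
    have h2 : (1 - -s / (t - s)) * s + -s / (t - s) * t = 0 := by
      field_simp
      ring
    rw [h2] at h1
    have h3 := Real.log_le_log (mul_pos (rpow_pos_of_pos hVs _) (rpow_pos_of_pos (hVpos t ht) _)) h1
    rw [Real.log_mul (rpow_pos_of_pos hVs _).ne' (rpow_pos_of_pos (hVpos t ht) _).ne',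
      Real.log_rpow hVs, Real.log_rpow (hVpos t ht)] at h3
    have h4 : t * log (V s) + -s * log (V t) ≤ (t - s) * log (V 0) := by
      have h5 := mul_le_mul_of_nonneg_left h3 hts.le
      have h6 : (t - s) * ((1 - -s / (t - s)) * log (V s) + -s / (t - s) * log (V t)) =
          t * log (V s) + -s * log (V t) := by
        field_simp
        ring
      rwa [h6] at h5
    rw [div_le_div_iff₀ ht (by linarith)]
    nlinarith
  obtain ⟨l, hl⟩ : ∃ l, l = sSup ((fun t => (log (V t) - log (V 0)) / t) '' Ioi 0) := ⟨_, rfl⟩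
  have hbdd : BddAbove ((fun t => (log (V t) - log (V 0)) / t) '' Ioi 0) := by
    refine ⟨(log (V 0) - log (V t₀)) / (-t₀), ?_⟩
    rintro _ ⟨t, ht, rfl⟩
    exact hsl t₀ ht₀ hVt₀ t ht
  have hle : ∀ t, 0 < t → (log (V t) - log (V 0)) / t ≤ l := fun t ht => by
    rw [hl]
    exact le_csSup hbdd ⟨t, ht, rfl⟩
  have hl0 : 0 < l := by
    refine lt_of_lt_of_le ?_ (hle t₁ ht₁)
    refine div_pos (sub_pos.2 (Real.log_lt_log h0 hVt₁)) ht₁
  have hback : ∀ t, 0 < V t → log (V t) ≤ log (V 0) + l * t → V t ≤ V 0 * exp (l * t) := by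
    intro t hVt h
    rw [← Real.exp_log hVt, ← Real.exp_log h0, ← Real.exp_add]
    exact Real.exp_le_exp.2 h
  refine ⟨l, hl0, fun t => ?_⟩
  rcases lt_trichotomy t 0 with ht | ht | ht
  · rcases (hnn t).eq_or_lt with hV | hV
    · rw [← hV]
      positivity
    · refine hback t hV ?_
      have h1 : l ≤ (log (V 0) - log (V t)) / (-t) := by
        rw [hl]
        refine csSup_le ⟨_, 1, mem_Ioi.2 one_pos, rfl⟩ ?_
        rintro _ ⟨s, hs, rfl⟩
        exact hsl t ht hV s hs
      rw [le_div_iff₀ (by linarith)] at h1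
      linarith
  · rw [ht]
    simp
  · refine hback t (hVpos t ht) ?_
    have h1 := hle t ht
    rw [div_le_iff₀ ht] at h1
    linarith

end Pool.Agent.H19.PK
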