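import Pool.Agent.H19.PK.Core

/-!
# (TSU) very far parts of the cells
-/

open MeasureTheory Set Metric Real
open scoped ENNReal

namespace Pool.Agent.H19.PK

open Pool.Agent.H97.PK

theorem one_add_sq_le_exp {u : ℝ} (hu : 0 ≤ u) : 1 + u ^ 2 ≤ exp u := by
  have h := Real.sum_le_exp_of_nonneg hu 4
  simp only [Finset.sum_range_succ, Finset.sum_range_zero, Nat.factorial] at h
  norm_num at h
  nlinarith [mul_nonneg hu (sq_nonneg (u - 3 / 2))]

theorem pf_tsu (hGRO : T_GRO) (hDIS : T_DIS) : T_TSU := by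
  intro d hd ι _ p b ρ Γ S _ hΓ
  have hd1 : (1 : ℝ) ≤ d := by exact_mod_cast hd
  have hd2 : (1 : ℝ) ≤ (d : ℝ) ^ 2 := one_le_pow₀ hd1
  have h := core hGRO hDIS d hd ι p b ρ Γ S 1 (1 / 2) (1 + (d : ℝ) ^ 2) (by positivity)
    (by positivity) (by linarith) (fun s hs i hi => ?_)
  · refine h.trans (mul_le_mul_left ?_ _)
    have h4 : (2 : ℝ≥0∞) = ENNReal.ofReal 2 := by simp
    rw [h4]
    refine ENNReal.ofReal_le_ofReal ?_
    have h5 : exp (1 / 2 * (1 - (1 + (d : ℝ) ^ 2))) ≤ 1 := by
      rw [Real.exp_le_one_iff]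
      linarith
    rw [one_mul, div_le_iff₀ (by norm_num)]
    linarith
  · have h1 := hΓ i hi
    obtain ⟨y, hy⟩ : ∃ y, y = s - 1 := ⟨_, rfl⟩
    have hs' : s = 1 + y := by linarith
    have hyd : (d : ℝ) ^ 2 ≤ y := by linarith
    have hy1 : 1 ≤ y := hd2.trans hyd
    have h2 : Γ i * exp (Γ i * (1 - s)) ≤ exp (1 - s) := by
      have h3 : Γ i ≤ exp ((Γ i - 1) * y) := by
        calc Γ i ≤ exp (Γ i - 1) := by
              have := Real.add_one_le_exp (Γ i - 1)
              linarith
          _ ≤ exp ((Γ i - 1) * y) := Real.exp_le_exp.2 (by nlinarith)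
      calc Γ i * exp (Γ i * (1 - s)) ≤ exp ((Γ i - 1) * y) * exp (Γ i * (1 - s)) :=
            mul_le_mul_of_nonneg_right h3 (Real.exp_pos _).le
        _ = exp (1 - s) := by
            rw [← Real.exp_add]
            congr 1
            rw [hs']
            ring
    have hsq : (d : ℝ) ≤ √y := Real.le_sqrt_of_sq_le hyd
    have hs0 : √s ≤ exp (√y / 2) := by
      have h5 : s ≤ exp (√y) := by
        have h6 := one_add_sq_le_exp (Real.sqrt_nonneg y)
        rw [Real.sq_sqrt (by linarith)] at h6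
        linarith
      calc √s ≤ √(exp (√y)) := Real.sqrt_le_sqrt h5
        _ = exp (√y / 2) := by rw [Real.exp_half]
    have hsd : √s ^ d ≤ exp (y / 2) := by
      calc √s ^ d ≤ exp (√y / 2) ^ d := pow_le_pow_left₀ (Real.sqrt_nonneg s) hs0 d
        _ = exp (d * (√y / 2)) := by rw [Real.exp_nat_mul]
        _ ≤ exp (y / 2) := by
            refine Real.exp_le_exp.2 ?_
            have h6 : (d : ℝ) * √y ≤ √y * √y := mul_le_mul_of_nonneg_right hsq (Real.sqrt_nonneg y)
            rw [Real.mul_self_sqrt (by linarith)] at h6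
            linarith
    calc Γ i * exp (Γ i * (1 - s)) * √s ^ d ≤ exp (1 - s) * exp (y / 2) :=
          mul_le_mul h2 hsd (by positivity) (by positivity)
      _ = 1 * exp (1 / 2 * (1 - s)) := by
          rw [← Real.exp_add, one_mul]
          congr 1
          rw [hs']
          ring

end Pool.Agent.H19.PK
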